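import Mathlib
import Pool.Agent.H7.Pretty

set_option autoImplicit false

namespace Pool.Agent.Results.MP_ff24f1_gt.NotSZD

open Set Filter Topology Pool.Agent.H7.Pretty

/-- A pretty base: a base of clopen sets with the nesting property (countable versus arbitrary). -/
def IsPrettyBase {X : Type} [TopologicalSpace X] (𝓑 : Set (Set X)) : Prop :=
  TopologicalSpace.IsTopologicalBasis 𝓑 ∧ (∀ b ∈ 𝓑, IsClopen b) ∧
    ∀ C D : Set (Set X), C ⊆ 𝓑 → D ⊆ 𝓑 → C.Countable → (∀ c ∈ C, ∀ d ∈ D, Disjoint c d) →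
      ∃ b ∈ 𝓑, (∀ c ∈ C, c ⊆ b) ∧ (∀ d ∈ D, Disjoint b d)

/-- The base is cocompact: the space is compact in the cotopology generated by the complements
of the closures of the members of the base. -/
def IsCocompact {X : Type} [TopologicalSpace X] (𝓑 : Set (Set X)) : Prop :=
  @IsCompact X (TopologicalSpace.generateFrom {U : Set X | ∃ b ∈ 𝓑, U = (closure b)ᶜ}) Set.univ

/-- The first uncountable ordinal. -/
abbrev W : Type := (Cardinal.aleph 1).ord.ToType

lemma Iic_cnt (a : W) : (Iic a).Countable := by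
  rw [← Iio_insert]
  refine Countable.insert a ?_
  rw [← Cardinal.le_aleph0_iff_set_countable, ← Order.lt_succ_iff, Cardinal.succ_aleph0]
  exact Cardinal.mk_Iio_toType_ord_lt a

lemma exists_nU : ∃ (n : W → ℕ) (U : Ultrafilter W), (∀ C : Set W, C.Countable → Cᶜ ∈ U) ∧
    Tendsto n U atTop := by
  have hW : Cardinal.mk W = Cardinal.aleph 1 := Cardinal.mk_ord_toType _
  obtain ⟨e⟩ : Nonempty (W ≃ W × ℕ) := by
    rw [← Cardinal.eq, Cardinal.mk_prod, Cardinal.lift_id, Cardinal.lift_id, hW, Cardinal.mk_nat,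
      Cardinal.mul_eq_left (Cardinal.aleph0_le_aleph 1) (Cardinal.aleph0_le_aleph 1)
        Cardinal.aleph0_ne_zero]
  have : (cocountable ⊓ comap (fun a => (e a).2) atTop : Filter W).NeBot := by
    rw [inf_neBot_iff]
    intro s hs t ht
    obtain ⟨t', ht', h1⟩ := mem_comap.mp ht
    obtain ⟨m, hm⟩ := mem_atTop_sets.mp ht'
    by_contra he
    rw [not_nonempty_iff_eq_empty] at he
    have h2 : ((fun a : W => e.symm (a, m)) ⁻¹' sᶜ).Countable :=
      (mem_cocountable.mp hs).preimage fun a b h => (Prod.mk.inj (e.symm.injective h)).1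
    have h3 : (univ : Set W).Countable := h2.mono fun a _ ha =>
      (he ▸ (⟨ha, h1 (hm _ (by simp))⟩ : e.symm (a, m) ∈ s ∩ t) : e.symm (a, m) ∈ (∅ : Set W))
    rw [← Cardinal.le_aleph0_iff_set_countable, Cardinal.mk_univ, hW] at h3
    exact absurd h3 (not_le.mpr Cardinal.aleph0_lt_aleph_one)
  obtain ⟨U, hU⟩ := Ultrafilter.exists_le (cocountable ⊓ comap (fun a => (e a).2) atTop : Filter W)
  refine ⟨fun a => (e a).2, U, fun C hC => hU (mem_inf_of_left (mem_cocountable.mpr ?_)),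
    tendsto_comap.mono_left (hU.trans inf_le_right)⟩
  rwa [compl_compl]

noncomputable def nn : W → ℕ := exists_nU.choose
noncomputable def UU : Ultrafilter W := exists_nU.choose_spec.choose
lemma UU_cnt : ∀ C : Set W, C.Countable → Cᶜ ∈ UU := exists_nU.choose_spec.choose_spec.1
lemma nn_tendsto : Tendsto nn UU atTop := exists_nU.choose_spec.choose_spec.2

abbrev S : Type := W × (W → ℕ) × ℕ

noncomputable def res (b : W → ℕ) (a : W) : W → ℕ := fun c => if c < a then b c else 0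

noncomputable def P (b : W → ℕ) (a : W) : S := (a, res b a, b a)
noncomputable def Q (b : W → ℕ) (a : W) : S := (a, res b a, b a + 1)

def Ab (b : W → ℕ) : Set S := range (P b) ∪ range (Q b)

noncomputable def xb (b : W → ℕ) : Filter S := map (P b) UU ⊔ map (Q b) UU

lemma Ab_mem (b : W → ℕ) : Ab b ∈ xb b :=
  mem_sup.mpr ⟨mem_map.mpr (univ_mem' fun a => Or.inl ⟨a, rfl⟩),
    mem_map.mpr (univ_mem' fun a => Or.inr ⟨a, rfl⟩)⟩

lemma cnt_compl (b : W → ℕ) {C : Set S} (hC : C.Countable) : Cᶜ ∈ xb b :=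
  mem_sup.mpr ⟨mem_map.mpr (UU_cnt _ (hC.preimage fun _ _ h => (Prod.mk.inj h).1)),
    mem_map.mpr (UU_cnt _ (hC.preimage fun _ _ h => (Prod.mk.inj h).1))⟩

lemma xb_neBot (b : W → ℕ) : (xb b).NeBot :=
  (map_neBot (f := (UU : Filter W)) (m := P b)).mono le_sup_left

lemma ad {b b' : W → ℕ} (h : b ≠ b') : (Ab b ∩ Ab b').Countable := by
  obtain ⟨c, hc⟩ := Function.ne_iff.mp h
  have key : ∀ s ∈ Ab b', s.2.1 = res b' s.1 := by
    rintro _ (⟨a, rfl⟩ | ⟨a, rfl⟩) <;> rfl
  have key2 : ∀ a, res b a = res b' a → a ∈ Iic c := by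
    intro a ha
    by_contra h'
    have h2 := congrFun ha c
    have h3 : c < a := not_le.mp h'
    simp only [res, if_pos h3] at h2
    exact hc h2
  refine (((Iic_cnt c).image (P b)).union ((Iic_cnt c).image (Q b))).mono ?_
  rintro _ ⟨⟨a, rfl⟩ | ⟨a, rfl⟩, h2⟩
  · exact Or.inl ⟨a, key2 a (key _ h2), rfl⟩
  · exact Or.inr ⟨a, key2 a (key _ h2), rfl⟩

def Small (A : Set S) : Prop := ∃ N : Set (W → ℕ), N.Countable ∧ (A \ ⋃ b ∈ N, Ab b).Countable

def fam : Fam S where
  A := {A | Small A ∧ ∀ b, A ∈ xb b ∨ (A ∩ Ab b).Countable}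
  cnt := fun C hC => ⟨⟨∅, countable_empty, hC.mono sdiff_subset⟩,
    fun _ => Or.inr (hC.mono inter_subset_left)⟩
  inter := by
    rintro a ⟨⟨N, h1, h2⟩, h3⟩ a' ⟨-, h4⟩
    refine ⟨⟨N, h1, h2.mono (sdiff_subset_sdiff_left inter_subset_left)⟩, fun b => ?_⟩
    rcases h3 b with h | h
    · rcases h4 b with h' | h'
      · exact Or.inl (inter_mem h h')
      · exact Or.inr (h'.mono (inter_subset_inter_left _ inter_subset_right))
    · exact Or.inr (h.mono (inter_subset_inter_left _ inter_subset_left))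
  union := by
    intro C hC h
    have h1 : ∀ a ∈ C, Small a := fun a ha => (h ha).1
    choose! N hN1 hN2 using h1
    refine ⟨⟨⋃ a ∈ C, N a, hC.biUnion hN1, (hC.biUnion hN2).mono ?_⟩, fun b => ?_⟩
    · rintro s ⟨⟨a, ha, hs⟩, hs'⟩
      refine mem_iUnion₂.mpr ⟨a, ha, hs, fun h' => hs' ?_⟩
      obtain ⟨b, hb, h2⟩ := mem_iUnion₂.mp h'
      exact mem_iUnion₂.mpr ⟨b, mem_iUnion₂.mpr ⟨a, ha, hb⟩, h2⟩
    · by_cases h2 : ∃ a ∈ C, a ∈ xb b
      · obtain ⟨a, ha, h3⟩ := h2
        exact Or.inl (mem_of_superset h3 (subset_sUnion_of_mem ha))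
      · push Not at h2
        refine Or.inr ((hC.biUnion fun a ha => ((h ha).2 b).resolve_left (h2 a ha)).mono ?_)
        rintro s ⟨⟨a, ha, hs⟩, hs'⟩
        exact mem_iUnion₂.mpr ⟨a, ha, hs, hs'⟩

lemma piece {b : W → ℕ} {T : Set S} (hT : T ∈ xb b) : T ∩ Ab b ∈ fam.A := by
  refine ⟨⟨{b}, countable_singleton _, by simp [inter_sdiff_assoc]⟩, fun b' => ?_⟩
  by_cases h : b = b'
  · exact Or.inl (h ▸ inter_mem hT (Ab_mem b))
  · exact Or.inr ((ad h).mono (inter_subset_inter_left _ inter_subset_right))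

noncomputable def xp (b : W → ℕ) : X fam where
  F := xb b
  neBot := xb_neBot b
  based := fun T hT => ⟨T ∩ Ab b, piece hT, inter_mem hT (Ab_mem b), inter_subset_left⟩
  dec := fun a ha => (ha.2 b).imp id fun h =>
    mem_of_superset (inter_mem (cnt_compl b h) (Ab_mem b)) fun _ hs hs' =>
      hs.1 (mem_inter hs' hs.2)

noncomputable def f (s : S) : ℝ := min ((s.2.2 : ℝ) / (nn s.1 + 1)) 1

lemma f_mem (s : S) : f s ∈ Icc (0 : ℝ) 1 :=
  ⟨le_min (by positivity) zero_le_one, min_le_right _ _⟩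

lemma ulim {Y : Type} (u : Ultrafilter Y) (g : Y → S) : ∃ t, Tendsto (f ∘ g) u (𝓝 t) := by
  obtain ⟨t, -, ht⟩ := (isCompact_Icc (a := (0 : ℝ)) (b := 1)).ultrafilter_le_nhds (u.map (f ∘ g))
    (le_principal_iff.mpr (mem_map.mpr (univ_mem' fun s => f_mem _)))
  exact ⟨t, ht⟩

lemma lim_xb (b : W → ℕ) : ∃ t, Tendsto f (xb b) (𝓝 t) := by
  obtain ⟨t, ht⟩ := ulim UU (P b)
  refine ⟨t, ?_⟩
  rw [xb, tendsto_sup, tendsto_map'_iff, tendsto_map'_iff]
  refine ⟨ht, ?_⟩
  have h1 : Tendsto (fun a => 1 / ((nn a : ℝ) + 1)) UU (𝓝 0) :=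
    tendsto_one_div_add_atTop_nhds_zero_nat.comp nn_tendsto
  have h2 : Tendsto (fun a => f (Q b a) - f (P b a)) UU (𝓝 0) := by
    refine squeeze_zero (fun a => ?_) (fun a => ?_) h1
    · refine sub_nonneg.mpr (min_le_min_right _ ?_)
      simp only [P, Q]
      gcongr
      omega
    · have h3 : (0 : ℝ) ≤ 1 / ((nn a : ℝ) + 1) := by positivity
      simp only [f, P, Q, Nat.cast_add, Nat.cast_one, add_div]
      rcases min_cases ((b a : ℝ) / (nn a + 1)) 1 with h | h
      · rw [h.1]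
        linarith [min_le_left ((b a : ℝ) / (nn a + 1) + 1 / (nn a + 1)) 1]
      · rw [h.1]
        linarith [min_le_right ((b a : ℝ) / (nn a + 1) + 1 / (nn a + 1)) 1]
  have h4 := ht.add h2
  rw [add_zero] at h4
  exact h4.congr fun a => by simp

lemma lim_all (x : X fam) : ∃ t, Tendsto f x.F (𝓝 t) := by
  have := x.neBot
  let u := Ultrafilter.of x.F
  have hu : (u : Filter S) ≤ x.F := Ultrafilter.of_le _
  obtain ⟨t, ht⟩ := ulim u id
  refine ⟨t, Metric.tendsto_nhds.mpr fun ε hε => ?_⟩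
  have ht' : ∀ δ > 0, {s | dist (f s) t < δ} ∈ u := Metric.tendsto_nhds.mp ht
  by_cases h : ∃ C : Set S, C.Countable ∧ C ∈ x.F
  · obtain ⟨C, hC, h1⟩ := h
    rcases x.dec _ (fam.cnt ({s | dist (f s) t < ε} ∩ C) (hC.mono inter_subset_right)) with h2 | h2
    · exact mem_of_superset h2 inter_subset_left
    · exact absurd (inter_mem (ht' ε hε) (hu h1)) (Ultrafilter.compl_mem_iff_notMem.mp (hu h2))
  · obtain ⟨A0, ⟨⟨N, hN, hN'⟩, -⟩, hA0, -⟩ := x.based univ univ_mem
    choose tb htb using lim_xb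
    let T : (W → ℕ) → Set S := fun b =>
      if dist (tb b) t < ε then {s | dist (f s) t < ε} else {s | ε / 2 < dist (f s) t}
    have hT : ∀ b, T b ∈ xb b := by
      intro b
      have h1 := (htb b).dist (tendsto_const_nhds (x := t))
      simp only [T]
      split_ifs with h2
      · exact h1.eventually (gt_mem_nhds h2)
      · exact h1.eventually (lt_mem_nhds (by linarith [not_lt.mp h2]))
    have hB : ∀ M ⊆ N, (⋃ b ∈ M, T b ∩ Ab b) ∈ fam.A := by
      intro M hM
      rw [← sUnion_image]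
      refine fam.union _ ((hN.mono hM).image _) ?_
      rintro _ ⟨b, -, rfl⟩
      exact piece (hT b)
    rcases x.dec _ (hB {b ∈ N | dist (tb b) t < ε} fun _ h => h.1) with h1 | h1
    · refine mem_of_superset h1 fun s hs => ?_
      obtain ⟨b, hb, h2, -⟩ := mem_iUnion₂.mp hs
      simpa only [T, if_pos hb.2] using h2
    rcases x.dec _ (hB {b ∈ N | ¬ dist (tb b) t < ε} fun _ h => h.1) with h2 | h2
    · obtain ⟨s, hs, hs'⟩ := Ultrafilter.nonempty_of_mem
        (inter_mem (hu h2) (ht' (ε / 2) (by linarith)))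
      obtain ⟨b, hb, h3, -⟩ := mem_iUnion₂.mp hs
      simp only [T, if_neg hb.2] at h3
      exact lt_asymm (show ε / 2 < dist (f s) t from h3) hs' |>.elim
    obtain ⟨D, hD, hD1, hD2⟩ := x.based _ (inter_mem hA0 (inter_mem h1 h2))
    refine absurd ⟨D, ?_, hD1⟩ h
    have h3 : ∀ b ∈ N, (D ∩ Ab b).Countable := by
      intro b hb
      refine (hD.2 b).resolve_left fun h4 => ?_
      have := xb_neBot b
      obtain ⟨s, hs, hs'⟩ := Filter.nonempty_of_mem (inter_mem h4 (inter_mem (hT b) (Ab_mem b)))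
      by_cases h5 : dist (tb b) t < ε
      · exact (hD2 hs).2.1 (mem_iUnion₂.mpr ⟨b, ⟨hb, h5⟩, hs'⟩)
      · exact (hD2 hs).2.2 (mem_iUnion₂.mpr ⟨b, ⟨hb, h5⟩, hs'⟩)
    refine (hN'.union (hN.biUnion h3)).mono fun s hs => ?_
    by_cases h4 : s ∈ ⋃ b ∈ N, Ab b
    · obtain ⟨b, hb, h5⟩ := mem_iUnion₂.mp h4
      exact Or.inr (mem_iUnion₂.mpr ⟨b, hb, hs, h5⟩)
    · exact Or.inl ⟨(hD2 hs).1, h4⟩

lemma branch (T : Set S) (h0 : ∀ s, f s = 0 → s ∈ T) (h1 : ∀ s, f s = 1 → s ∉ T) :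
    ∃ b : W → ℕ, ∀ a, P b a ∈ T ∧ Q b a ∉ T := by
  have key : ∀ (a : W) (σ : W → ℕ), ∃ k, (a, σ, k) ∈ T ∧ (a, σ, k + 1) ∉ T := by
    intro a σ
    by_contra hc
    push Not at hc
    have h2 : ∀ k, (a, σ, k) ∈ T := by
      intro k
      induction k with
      | zero => exact h0 _ (by simp [f])
      | succ k ih => exact hc k ih
    refine h1 _ ?_ (h2 (nn a + 1))
    have : (nn a : ℝ) + 1 ≠ 0 := by positivity
    simp [f, this]
  choose g hg using key
  let b : W → ℕ := (wellFounded_lt (α := W)).fix fun a ih =>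
    g a fun c => if h : c < a then ih c h else 0
  have hb : ∀ a, b a = g a (res b a) := by
    intro a
    change (wellFounded_lt (α := W)).fix _ a = _
    rw [WellFounded.fix_eq]
    congr 1
  refine ⟨b, fun a => ?_⟩
  simp only [P, Q]
  rw [hb a]
  exact hg a _

lemma not_szd :
    ¬ TopologicalSpace.IsTopologicalBasis {U : Set (StoneCech (X fam)) | IsClopen U} := by
  intro hB
  obtain ⟨h, hc, hh⟩ := extend fam f lim_all
  have hm : ∀ x, h x ∈ Icc (0 : ℝ) 1 := fun x => by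
    have := x.neBot
    exact isClosed_Icc.mem_of_tendsto (hh x) (Eventually.of_forall f_mem)
  have hpt : ∀ s, h (pt fam s) = f s := fun s =>
    tendsto_nhds_unique (l := pure s) (hh (pt fam s)) (tendsto_pure_nhds f s)
  have hc' : Continuous fun x => (⟨h x, hm x⟩ : Icc (0 : ℝ) 1) := hc.subtype_mk _
  let H : StoneCech (X fam) → ℝ := fun z => (stoneCechExtend hc' z).1
  have hH : Continuous H := continuous_subtype_val.comp (continuous_stoneCechExtend hc')
  have hHu : ∀ x, H (stoneCechUnit x) = h x := fun x => by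
    simp only [H, stoneCechExtend_stoneCechUnit]
  have : TotallySeparatedSpace (StoneCech (X fam)) := totallySeparatedSpace_of_t0_of_basis_clopen hB
  obtain ⟨V, hV, hV1, hV2⟩ := exists_clopen_of_closed_subset_open
    (Z := {z | H z = 0}) (U := {z | H z ≠ 1}) (isClosed_eq hH continuous_const)
    (isOpen_ne_fun hH continuous_const) (fun z hz h' => by
      rw [mem_ofPred_eq] at hz
      rw [hz] at h'
      exact zero_ne_one h')
  obtain ⟨b, hb⟩ := branch {s | stoneCechUnit (pt fam s) ∈ V}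
    (fun s hs => hV1 (by rw [mem_ofPred_eq, hHu, hpt, hs]))
    (fun s hs h' => hV2 h' (by rw [hHu, hpt, hs]))
  have ht : Tendsto (fun s => stoneCechUnit (pt fam s)) (xb b) (𝓝 (stoneCechUnit (xp b))) :=
    continuous_stoneCechUnit.continuousAt.tendsto.comp (tendsto_pt fam (xp b))
  by_cases hx : stoneCechUnit (xp b) ∈ V
  · obtain ⟨a, ha⟩ := Ultrafilter.nonempty_of_mem
      (mem_map.mp (mem_sup.mp (mem_map.mp (ht (hV.isOpen.mem_nhds hx)))).2)
    exact (hb a).2 ha
  · obtain ⟨a, ha⟩ := Ultrafilter.nonempty_of_mem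
      (mem_map.mp (mem_sup.mp (mem_map.mp (ht (hV.compl.isOpen.mem_nhds hx)))).1)
    exact ha (hb a).1

/-- A Tychonoff space with a cocompact pretty base whose Stone-Cech compactification is not
zero-dimensional. -/
theorem result : ∃ (X : Type) (_ : TopologicalSpace X), T35Space X ∧
    (∃ 𝓑 : Set (Set X), IsPrettyBase 𝓑 ∧ IsCocompact 𝓑) ∧
    ¬ TopologicalSpace.IsTopologicalBasis {U : Set (StoneCech X) | IsClopen U} :=
  ⟨X fam, inferInstance, inferInstance,
    ⟨BB fam, ⟨basis fam, BB_clopen fam, pretty fam⟩, cocompact fam⟩, not_szd⟩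

end Pool.Agent.Results.MP_ff24f1_gt.NotSZD
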